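import Mathlib

set_option autoImplicit false

namespace Pool.Agent.Results.MP_f24352_gt.No

open Set Filter Topology

/-- A precompact abelian group with a closed `G_δ`-subgroup that is not the common kernel of any
sequence of continuous characters. -/
theorem result : ∃ (X : Type) (_ : TopologicalSpace X) (_ : AddCommGroup X),
    IsTopologicalAddGroup X ∧ T2Space X ∧
    (∀ U ∈ 𝓝 (0 : X), ∃ E : Set X, E.Finite ∧ ∀ x, ∃ u ∈ U, ∃ e ∈ E, x = u + e) ∧
    ∃ F : AddSubgroup X, IsClosed (F : Set X) ∧ IsGδ (F : Set X) ∧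
      ∀ v : ℕ → X →+ UnitAddCircle, (∀ n, Continuous (v n)) →
        (F : Set X) ≠ ⋂ n, {x | v n x = 0} := by
  classical
  let W := Σ m : ℕ, Fin m → Bool
  let A : (ℕ → Bool) → W → ZMod 2 := fun a w => if w.2 = fun i => a i.1 then 1 else 0
  let L := Finsupp.linearCombination (ZMod 2) A
  let Φ : ((ℕ → Bool) →₀ ZMod 2) × (W →₀ ZMod 2) →+ ((ℕ → Bool) ⊕ W → ZMod 2) :=
    AddMonoidHom.mk' (fun p => Sum.elim p.1 (L p.1 + p.2)) fun p q => funext fun i => by
      cases i <;> simp [add_add_add_comm]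
  have nb : ∀ U ∈ 𝓝 (0 : Φ.range), ∃ I : Finset ((ℕ → Bool) ⊕ W),
      ∀ x : Φ.range, EqOn x.1 0 I → x ∈ U := by
    intro U hU
    obtain ⟨_, v1, ⟨O, o1, rfl⟩, v3⟩ := mem_nhds_iff.1 hU
    obtain ⟨I, u, u1, u2⟩ := isOpen_pi_iff.1 o1 _ v3
    exact ⟨I, fun x hx => v1 (u2 fun i hi => (hx hi).symm ▸ (u1 i hi).2)⟩
  have hc : ∀ i, Continuous fun x : Φ.range => x.1 i := fun i =>
    (continuous_apply i).comp continuous_subtype_val
  let F : AddSubgroup Φ.range := ⨅ a, ((Pi.evalAddMonoidHom _ (Sum.inl a)).comp Φ.range.subtype).ker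
  have hF : ∀ x, x ∈ F ↔ ∀ a, x.1 (.inl a) = 0 := fun x => by simp [F, AddSubgroup.mem_iInf]
  have hz : ∀ f : W →₀ ZMod 2, ∀ᶠ m in atTop, ∀ s, f ⟨m, s⟩ = 0 := fun f =>
    (eventually_gt_atTop (f.support.sup Sigma.fst)).mono fun m hm s => not_not.1 fun h =>
      hm.not_ge (Finset.le_sup (f := Sigma.fst) (Finsupp.mem_support_iff.2 h))
  refine ⟨Φ.range, inferInstance, inferInstance, inferInstance, inferInstance, fun U hU => ?_, F,
    ?_, ?_, fun v hv h => ?_⟩
  · obtain ⟨I, hI⟩ := nb U hU
    let r : Φ.range → I → ZMod 2 := fun x i => x.1 i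
    refine ⟨range (Function.invFun r), finite_range _, fun x => ⟨_, hI (x - Function.invFun r (r x))
      fun i hi => ?_, _, ⟨r x, rfl⟩, by simp⟩⟩
    simpa [sub_eq_zero] using (congrFun (Function.invFun_eq (f := r) ⟨x, rfl⟩) ⟨i, hi⟩).symm
  · rw [show (F : Set Φ.range) = ⋂ a, {x | x.1 (.inl a) = 0} from ext fun x => by simp [hF]]
    exact isClosed_iInter fun a => isClosed_eq (hc _) continuous_const
  · rw [show (F : Set Φ.range) = ⋂ n, ⋃ m ≥ n, ⋂ s, {x | x.1 (.inr ⟨m, s⟩) = 0} from
      ext fun x => ?_]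
    · exact .iInter fun n => (isOpen_biUnion fun m _ => isOpen_iInter_of_finite fun s =>
        (isOpen_discrete {0}).preimage (hc _)).isGδ
    obtain ⟨_, ⟨y, f⟩, rfl⟩ := x
    simp only [SetLike.mem_coe, hF, mem_iInter, mem_iUnion, mem_ofPred_eq, exists_prop]
    rw [← frequently_atTop (p := fun m => ∀ s, Φ (y, f) (.inr ⟨m, s⟩) = 0)]
    refine ⟨fun h => ?_, fun h a => not_not.1 fun ha => ?_⟩
    · obtain rfl : y = 0 := Finsupp.ext h
      exact ((hz f).mono fun m hm s => by simp [Φ, hm]).frequently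
    · have h1 : ∀ᶠ m in atTop, ∀ b ∈ y.support, b ≠ a → A b ⟨m, fun i => a i.1⟩ = 0 :=
        (eventually_all_finset _).2 fun b _ => by
          by_cases hb : b = a
          · simp [hb]
          obtain ⟨k, hk⟩ := Function.ne_iff.1 hb
          exact (eventually_gt_atTop k).mono fun m hm _ =>
            if_neg fun e => hk (congrFun e ⟨k, hm⟩).symm
      obtain ⟨m, m1, m2, m3⟩ := (h.and_eventually ((hz f).and h1)).exists
      have := m1 fun i => a i.1
      simp only [Φ, AddMonoidHom.mk'_apply, Sum.elim_inr, Pi.add_apply, m2, add_zero, L,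
        Finsupp.linearCombination_apply, Finsupp.sum, Finset.sum_apply] at this
      rw [Finset.sum_eq_single a (fun b hb h => by simp [m3 b hb h])
        (fun h => absurd (Finsupp.mem_support_iff.2 ha) h)] at this
      exact ha (show y a = 0 by simpa [A] using this)
  · have h1 : ∀ n, ∃ I : Finset ((ℕ → Bool) ⊕ W), ∀ x : Φ.range, EqOn x.1 0 I → v n x = 0 := by
      intro n
      obtain ⟨I, hI⟩ := nb _ ((hv n).continuousAt (x := 0) (by
        simpa using Metric.ball_mem_nhds (0 : UnitAddCircle) (show (0 : ℝ) < 1 / 2 by norm_num)))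
      refine ⟨I, fun x hx => ?_⟩
      have a1 : ‖v n x‖ < 1 / 2 := by simpa using hI x hx
      have a2 : 2 • v n x = 0 := by
        rw [← map_nsmul, show 2 • x = 0 from Subtype.ext (funext fun i => by
          simp [two_smul, CharTwo.add_self_eq_zero]), map_zero]
      by_contra a3
      have := AddCircle.le_add_order_smul_norm_of_isOfFinAddOrder (p := 1)
        (isOfFinAddOrder_iff_nsmul_eq_zero.2 ⟨2, two_pos, a2⟩) a3
      rw [addOrderOf_eq_prime a2 a3] at this
      simp only [nsmul_eq_mul] at this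
      push_cast at this
      linarith
    choose I hI using h1
    obtain ⟨a, ha⟩ : ∃ a, ∀ n, Sum.inl a ∉ I n := by
      by_contra hn
      push Not at hn
      have : Uncountable (ℕ → Bool) := Cardinal.aleph0_lt_mk_iff.1 (by
        simpa using Cardinal.aleph0_lt_continuum)
      exact not_countable_univ (((countable_iUnion fun n => (I n).countable_toSet).preimage
        Sum.inl_injective).mono fun a _ => mem_preimage.2 (mem_iUnion.2 (hn a)))
    let x : Φ.range := ⟨_, (Finsupp.single a 1, 0), rfl⟩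
    have h2 : x ∈ F := h.ge (mem_iInter.2 fun n => by
      let f : W →₀ ZMod 2 := Finsupp.onFinset (I n).toRight (fun w => if .inr w ∈ I n then A a w else 0)
        fun w hw => by simpa using by_contra fun h => hw (if_neg h)
      let z : Φ.range := ⟨_, (0, f), rfl⟩
      have b1 : v n z = 0 := mem_iInter.1 (h.le ((hF z).2 fun _ => rfl)) n
      have b2 := hI n (x - z) fun i hi => by
        cases i with
        | inl b => simp [x, z, Φ, show a ≠ b from fun e => ha n (e ▸ hi)]
        | inr w => simp [x, z, Φ, f, L, Finset.mem_coe.1 hi]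
      simpa [b1] using b2)
    simpa [x, Φ] using (hF x).1 h2 a

end Pool.Agent.Results.MP_f24352_gt.No
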